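import Pool.Agent.RDG.Main

open TensorProduct
open Pool.Agent.RG

universe u t v w

namespace Pool.Agent.Results.MP_720b6c_al.TiltingCoversReductive

/-- Let `k` be an algebraically closed field of characteristic `p > 0` and `G` a connected reductive
group over `k` with a maximal torus and a Borel subgroup: `G : RedGrp k P b Γ`, where `Γ` is the group
of the `k`-points, `P` the root datum and `b` the base. Let `S` be a finitely generated
commutative `k`-algebra with a rational action `σ` of `G` by algebra automorphisms which has a good
filtration, and `M` a finitely generated `(G, S)`-module with a good filtration. Then there are a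
tilting module `T` and a surjective morphism of `(G, S)`-modules `T ⊗ S → M` whose kernel has a good
filtration.

(`RedGrp` describes a connected reductive group in the language of varieties by its torus, its root
datum, its homomorphisms from `SL₂` and its big cell: Jantzen, Representations of algebraic groups,
II.1.1 - II.1.9; Springer, Linear algebraic groups, chapter 8. The commutator formula is proved in
`Pool.Agent.RDG.Com`. As an example, `Pool.Agent.RG.glG n k` is `GL_n(k)` with the diagonal torus
and the upper triangular Borel subgroup.) -/
theorem result (p : ℕ) [Fact p.Prime] (k : Type u) [Field k] [IsAlgClosed k] [CharP k p]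
    (ι X Y : Type t) [Finite ι] [AddCommGroup X] [Module.Free ℤ X] [Module.Finite ℤ X]
    [AddCommGroup Y] (P : RootDatum ι X Y) [P.IsReduced] (b : P.Base)
    (Γ : Type u) [Group Γ] (G : RedGrp k P b Γ)
    (S : Type v) [CommRing S] [Algebra k S] [Algebra.FiniteType k S]
    (σ : Representation k Γ S) (hσ : IsMul σ) (hσr : G.IsRational σ)
    (hσg : G.HasGoodFiltration σ ⊤)
    (M : Type w) [AddCommGroup M] [Module k M] [Module S M] [IsScalarTower k S M]
    [Module.Finite S M] (ρ : Representation k Γ M) (hρ : IsEquivModule σ ρ)
    (hρr : G.IsRational ρ) (hρg : G.HasGoodFiltration ρ ⊤) :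
    ∃ (T : Type u) (_ : AddCommGroup T) (_ : Module k T) (τ : Representation k Γ T),
      G.IsTilting τ ∧ ∃ φ : T ⊗[k] S →ₗ[k] M, Function.Surjective φ ∧
        (∀ t s s', φ (t ⊗ₜ (s' * s)) = s' • φ (t ⊗ₜ s)) ∧
        (∀ g x, φ (τ.tprod σ g x) = ρ g (φ x)) ∧
        G.HasGoodFiltration (τ.tprod σ) (LinearMap.ker φ) :=
  G.tilting_cover p σ hσ hσr hσg ρ hρ hρr hρg

end Pool.Agent.Results.MP_720b6c_al.TiltingCoversReductive
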