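import Pool.Agent.Helper66.TR.Final
import Pool.Agent.Helper66.TRS.Conv

open TensorProduct
open Pool.Agent.Helper66.TR (G IsMul IsRational IsEquivModule)
open Pool.Agent.Helper66.TRS (HasGoodFiltration IsTilting good_iff tilting_of)

universe u v w

namespace Pool.Agent.Results.MP_720b6c_al.TiltingCoversSLTwo

/-- Let `k` be an algebraically closed field of characteristic `p > 0`, `G = SL₂(k)`, `S` a
finitely generated commutative `k`-algebra with a rational action `σ` of `G` by algebra
automorphisms which has a good filtration, and `M` a finitely generated `(G, S)`-module with a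
good filtration. Then there are a tilting module `T` and a surjective morphism of `(G, S)`-modules
`T ⊗ S → M` whose kernel has a good filtration. -/
theorem result (p : ℕ) [Fact p.Prime] (k : Type u) [Field k] [IsAlgClosed k] [CharP k p]
    (S : Type v) [CommRing S] [Algebra k S] [Algebra.FiniteType k S]
    (σ : Representation k (G k) S) (hσ : IsMul σ) (hσr : IsRational σ)
    (hσg : HasGoodFiltration σ ⊤)
    (M : Type w) [AddCommGroup M] [Module k M] [Module S M] [IsScalarTower k S M]
    [Module.Finite S M] (ρ : Representation k (G k) M) (hρ : IsEquivModule σ ρ)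
    (hρr : IsRational ρ) (hρg : HasGoodFiltration ρ ⊤) :
    ∃ (T : Type u) (_ : AddCommGroup T) (_ : Module k T) (τ : Representation k (G k) T),
      IsTilting τ ∧ ∃ φ : T ⊗[k] S →ₗ[k] M, Function.Surjective φ ∧
        (∀ t s s', φ (t ⊗ₜ (s' * s)) = s' • φ (t ⊗ₜ s)) ∧
        (∀ g x, φ (τ.tprod σ g x) = ρ g (φ x)) ∧
        HasGoodFiltration (τ.tprod σ) (LinearMap.ker φ) := by
  have : Infinite k := IsAlgClosed.instInfinite
  obtain ⟨T, φ, h1, h2, h3, h4, h5⟩ := Pool.Agent.Helper66.TR.tilting_cover p σ ρ hσ hσr hρr hρ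
    ((good_iff σ ⊤).1 hσg) ((good_iff ρ ⊤).1 hρg)
  exact ⟨T.V, T.ac, T.md, T.ρ, tilting_of _ h1, φ, h2, h3, h4, (good_iff _ _).2 h5⟩

end Pool.Agent.Results.MP_720b6c_al.TiltingCoversSLTwo
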